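import Pool.Agent.Helper2.Mah.Mink

/-!
# The Alexandrov-Fenchel inequality in dimension three, from the Brunn-Minkowski inequality
-/

set_option autoImplicit false
set_option linter.unusedSectionVars false

open MeasureTheory Set Multiset Module
open scoped Pointwise NNReal

noncomputable section

namespace Pool.Agent.Helper2.Mah

open Pool.Agent.TH650.MV

theorem nonneg_at_zero {f : ℝ → ℝ} (hf : Continuous f) (h : ∀ x : ℝ, 0 < x → 0 ≤ f x) :
    0 ≤ f 0 := by
  have hc : ContinuousWithinAt f (Ioi 0) 0 := hf.continuousWithinAt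
  exact ge_of_tendsto hc (eventually_nhdsWithin_of_forall fun x hx => h x hx)

section

variable {G : Type*} [NormedAddCommGroup G] [NormedSpace ℝ G] [FiniteDimensional ℝ G]
  [MeasurableSpace G] [BorelSpace G] (μ : Measure G) [μ.IsAddHaarMeasure]

/-- the mixed volume of three bodies -/
def T (X Y Z : ConvexBody G) : ℝ := V μ (X ::ₘ Y ::ₘ Z ::ₘ 0)

theorem T_12 (X Y Z : ConvexBody G) : T μ X Y Z = T μ Y X Z := by
  unfold T; rw [cons_swap]

theorem T_23 (X Y Z : ConvexBody G) : T μ X Y Z = T μ X Z Y := by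
  unfold T; rw [cons_swap Y Z]

theorem T_13 (X Y Z : ConvexBody G) : T μ X Y Z = T μ Z Y X := by
  rw [T_12, T_23, T_12]

variable (h3 : finrank ℝ G = 3)

include h3

theorem T_add1 (X X' Y Z : ConvexBody G) : T μ (X + X') Y Z = T μ X Y Z + T μ X' Y Z :=
  V_add μ X X' _ (by simp [h3])

theorem T_smul1 (c : ℝ≥0) (X Y Z : ConvexBody G) : T μ (c • X) Y Z = c * T μ X Y Z :=
  V_smul μ c X _ (by simp [h3])

theorem T_add2 (X X' Y Z : ConvexBody G) : T μ Y (X + X') Z = T μ Y X Z + T μ Y X' Z := by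
  rw [T_12, T_add1 μ h3, T_12 μ X, T_12 μ X']

theorem T_smul2 (c : ℝ≥0) (X Y Z : ConvexBody G) : T μ Y (c • X) Z = c * T μ Y X Z := by
  rw [T_12, T_smul1 μ h3, T_12 μ X]

theorem T_add3 (X X' Y Z : ConvexBody G) : T μ Y Z (X + X') = T μ Y Z X + T μ Y Z X' := by
  rw [T_13, T_add1 μ h3, T_13 μ X, T_13 μ X']

theorem T_smul3 (c : ℝ≥0) (X Y Z : ConvexBody G) : T μ Y Z (c • X) = c * T μ Y Z X := by
  rw [T_13, T_smul1 μ h3, T_13 μ X]

theorem T_nonneg (X Y Z : ConvexBody G) : 0 ≤ T μ X Y Z := V_nonneg μ _ (by simp [h3])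

theorem T_mono1 {X X' : ConvexBody G} (h : X ≤ X') (Y Z : ConvexBody G) :
    T μ X Y Z ≤ T μ X' Y Z := V_mono μ h _ (by simp [h3])

theorem W_one3 (A B : ConvexBody G) : W μ A B 1 = T μ B A A := by
  unfold W T
  rw [h3]
  rfl

theorem W_two3 (A B : ConvexBody G) : W μ A B 2 = T μ B B A := by
  unfold W T
  rw [h3]
  rfl

theorem vl3 (A : ConvexBody G) : vl μ A = T μ A A A := by
  rw [← W_zero μ A A]
  unfold W T
  rw [h3]
  rfl

theorem second3 (X Y : ConvexBody G) (hX : 0 < vl μ X) :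
    T μ X X X * T μ Y Y X ≤ T μ Y X X ^ 2 := by
  have h := mink_second μ X Y (by omega) hX
  rwa [W_one3 μ h3, W_two3 μ h3, vl3 μ h3] at h

/-- the balanced case -/
theorem af_balanced (A B C : ConvexBody G) (hC : 0 < vl μ C) (hAB : T μ A C C = T μ B C C) :
    T μ A A C + T μ B B C ≤ 2 * T μ A B C := by
  have hCT : 0 < T μ C C C := by rwa [← vl3 μ h3]
  have key : ∀ x : ℝ, 0 < x → 0 ≤
      (T μ C C C * (2 * T μ A B C - T μ A A C - T μ B B C)
        + x * (2 * T μ C C C * T μ A B B + 6 * T μ B C C * (T μ B B C + 2 * T μ A B C)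
          - T μ C C C * (T μ A A B + T μ B B B)
          - 3 * T μ B C C * (3 * T μ B B C + 2 * T μ A B C + T μ A A C))
        + x ^ 2 * ((T μ B B C + 2 * T μ A B C) ^ 2 + 6 * T μ B C C * T μ A B B
          - 3 * T μ B C C * (T μ A A B + T μ B B B)
          - 3 * T μ B B C * (2 * T μ A B C + T μ A A C))
        + x ^ 3 * (2 * (T μ B B C + 2 * T μ A B C) * T μ A B B
          - 3 * T μ B B C * T μ A A B - T μ B B B * (2 * T μ A B C + T μ A A C))
        + x ^ 4 * (T μ A B B ^ 2 - T μ B B B * T μ A A B)) := by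
    intro x hx
    set e : ℝ≥0 := x.toNNReal with he
    have hee : (e : ℝ) = x := Real.coe_toNNReal x hx.le
    have hX : 0 < vl μ (C + e • B) := lt_of_lt_of_le hC (vl_mono_add μ C B e)
    have h := second3 μ h3 (C + e • B) (C + e • A) hX
    simp only [T_add1 μ h3, T_add2 μ h3, T_add3 μ h3, T_smul1 μ h3, T_smul2 μ h3,
      T_smul3 μ h3, hee] at h
    rw [T_23 μ B C B, T_12 μ C A C, T_12 μ C A B, T_23 μ A C B, hAB, T_13 μ C C B, T_12 μ C B C,
      T_13 μ C B B] at h
    have h' := sub_nonneg.2 h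
    refine nonneg_of_mul_nonneg_right (a := x ^ 2) (le_of_le_of_eq h' ?_) (by positivity)
    ring
  have h0 := nonneg_at_zero (f := fun x =>
      (T μ C C C * (2 * T μ A B C - T μ A A C - T μ B B C)
        + x * (2 * T μ C C C * T μ A B B + 6 * T μ B C C * (T μ B B C + 2 * T μ A B C)
          - T μ C C C * (T μ A A B + T μ B B B)
          - 3 * T μ B C C * (3 * T μ B B C + 2 * T μ A B C + T μ A A C))
        + x ^ 2 * ((T μ B B C + 2 * T μ A B C) ^ 2 + 6 * T μ B C C * T μ A B B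
          - 3 * T μ B C C * (T μ A A B + T μ B B B)
          - 3 * T μ B B C * (2 * T μ A B C + T μ A A C))
        + x ^ 3 * (2 * (T μ B B C + 2 * T μ A B C) * T μ A B B
          - 3 * T μ B B C * T μ A A B - T μ B B B * (2 * T μ A B C + T μ A A C))
        + x ^ 4 * (T μ A B B ^ 2 - T μ B B B * T μ A A B))) (by fun_prop) key
  simp only [zero_mul, add_zero, ne_eq, OfNat.ofNat_ne_zero, not_false_eq_true, zero_pow] at h0
  have h1 := nonneg_of_mul_nonneg_right h0 hCT
  linarith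

/-- **the Alexandrov-Fenchel inequality in dimension three** -/
theorem af3 (A B C : ConvexBody G) (hC : 0 < vl μ C) (hA : 0 < T μ A C C) (hB : 0 < T μ B C C) :
    T μ A A C * T μ B B C ≤ T μ A B C ^ 2 := by
  set a := T μ A C C with ha
  set b := T μ B C C with hb
  have h := af_balanced μ h3 (b.toNNReal • A) (a.toNNReal • B) C hC (by
    rw [T_smul1 μ h3, T_smul1 μ h3, Real.coe_toNNReal b hB.le, Real.coe_toNNReal a hA.le,
      ← ha, ← hb, mul_comm])
  simp only [T_smul1 μ h3, T_smul2 μ h3, Real.coe_toNNReal b hB.le, Real.coe_toNNReal a hA.le] at h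
  have n1 := T_nonneg μ h3 A A C
  have n2 := T_nonneg μ h3 B B C
  have n3 := T_nonneg μ h3 A B C
  set α := T μ A A C
  set γ := T μ B B C
  set β := T μ A B C
  have h1 : (b ^ 2 * α + a ^ 2 * γ) ^ 2 ≤ (2 * (a * b * β)) ^ 2 := by
    refine pow_le_pow_left₀ (by positivity) ?_ 2
    linarith
  have h2 : a ^ 2 * b ^ 2 * (α * γ) ≤ a ^ 2 * b ^ 2 * β ^ 2 := by
    nlinarith [sq_nonneg (b ^ 2 * α - a ^ 2 * γ)]
  exact le_of_mul_le_mul_left h2 (by positivity)

end

end Pool.Agent.Helper2.Mah
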