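import Pool.Agent.Helper2.Mah.Harm

/-!
# The volume of the harmonic body, from Minkowski's and the Alexandrov-Fenchel inequality
-/

set_option autoImplicit false
set_option linter.unusedSectionVars false

open MeasureTheory Set Multiset Module
open scoped Pointwise NNReal

noncomputable section

namespace Pool.Agent.Helper2.Mah

open Pool.Agent.TH650.MV

section abs

variable {E : Type*} [NormedAddCommGroup E] [NormedSpace ℝ E] [FiniteDimensional ℝ E]
  [MeasurableSpace E] [BorelSpace E] (μ : Measure E) [μ.IsAddHaarMeasure]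
  {P K N : ConvexBody E}

/-- the reflection symmetry of the mixed volumes -/
def Refl (μ : Measure E) (P K N : ConvexBody E) : Prop := ∀ a b c : ℕ,
  V μ (replicate c P + (replicate a K + replicate b N)) =
    V μ (replicate c P + (replicate b K + replicate a N))

theorem vv_symm (hR : Refl μ P K N) (a b : ℕ) : vv μ P K N a b = vv μ P K N b a := by
  unfold vv
  rw [hR, add_comm a b]

theorem vv_zero : vv μ P K N 0 0 = vl μ P := by
  unfold vv
  rw [replicate_zero, replicate_zero, add_zero, add_zero, add_zero, Nat.sub_zero, V_self]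

theorem W_one_sum (hn : 2 ≤ finrank ℝ E) :
    W μ P (K + N) 1 = vv μ P K N 1 0 + vv μ P K N 0 1 := by
  unfold W vv
  have e : replicate 1 (K + N) + replicate (finrank ℝ E - 1) P =
      (K + N) ::ₘ replicate (finrank ℝ E - 1) P := by
    rw [replicate_one, singleton_add]
  rw [e, V_add μ K N _ (by rw [card_replicate]; omega)]
  congr 1
  · congr 1
    rw [replicate_one, replicate_zero, add_zero, add_zero, add_comm, singleton_add]
  · congr 1
    rw [replicate_one, replicate_zero, zero_add, zero_add, add_comm, singleton_add]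

theorem W_two_sum (hn : 2 ≤ finrank ℝ E) :
    W μ P (K + N) 2 = vv μ P K N 2 0 + 2 * vv μ P K N 1 1 + vv μ P K N 0 2 := by
  unfold W vv
  have h := V_binom μ K N 2 (replicate (finrank ℝ E - 2) P) (by rw [card_replicate]; omega)
  rw [h]
  simp only [Finset.sum_range_succ, Finset.sum_range_zero, zero_add]
  have e1 : replicate 0 K + replicate (2 - 0) N + replicate (finrank ℝ E - 2) P =
      replicate (finrank ℝ E - 2) P + (replicate 0 K + replicate 2 N) := by
    rw [Nat.sub_zero]; abel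
  have e2 : replicate 1 K + replicate (2 - 1) N + replicate (finrank ℝ E - 2) P =
      replicate (finrank ℝ E - (1 + 1)) P + (replicate 1 K + replicate 1 N) := by
    rw [show 2 - 1 = 1 by norm_num, show 1 + 1 = 2 by norm_num]; abel
  have e3 : replicate 2 K + replicate (2 - 2) N + replicate (finrank ℝ E - 2) P =
      replicate (finrank ℝ E - (2 + 0)) P + (replicate 2 K + replicate 0 N) := by
    rw [Nat.sub_self, add_zero 2]; abel
  rw [e1, e2, e3]
  norm_num
  ring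

/-- the elementary inequality -/
theorem elem {r x p q : ℝ} (hp : 0 < p) (hq : 0 ≤ q) (hx : 0 ≤ x)
    (h1 : r * (2 * p + 2 * q) ≤ (2 * x) ^ 2)
    (h2 : ∀ t : ℝ, x ≤ (1 - t) ^ 2 * p + t ^ 2 * q) : 27 * r ≤ 8 * p := by
  have hpq : 0 < p + q := by linarith
  have h3 := h2 (p / (p + q))
  have e : (1 - p / (p + q)) ^ 2 * p + (p / (p + q)) ^ 2 * q = p * q / (p + q) := by
    field_simp
    ring
  rw [e, le_div_iff₀ hpq] at h3
  have h4 : r * (p + q) ≤ 2 * x ^ 2 := by nlinarith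
  have h5 : (x * (p + q)) ^ 2 ≤ (p * q) ^ 2 := pow_le_pow_left₀ (by positivity) h3 2
  have h6 : r * (p + q) ^ 3 ≤ 2 * (p * q) ^ 2 := by
    calc r * (p + q) ^ 3 = (r * (p + q)) * (p + q) ^ 2 := by ring
      _ ≤ (2 * x ^ 2) * (p + q) ^ 2 := by gcongr
      _ = 2 * (x * (p + q)) ^ 2 := by ring
      _ ≤ _ := by linarith
  have h7 : 27 * (p * q ^ 2) ≤ 4 * (p + q) ^ 3 := by
    nlinarith [mul_nonneg (by linarith : (0:ℝ) ≤ 4 * p + q) (sq_nonneg (2 * p - q))]
  have h8 : 27 * r * (p + q) ^ 3 ≤ 8 * p * (p + q) ^ 3 := by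
    calc 27 * r * (p + q) ^ 3 = 27 * (r * (p + q) ^ 3) := by ring
      _ ≤ 27 * (2 * (p * q) ^ 2) := by gcongr
      _ = 2 * p * (27 * (p * q ^ 2)) := by ring
      _ ≤ 2 * p * (4 * (p + q) ^ 3) := by gcongr
      _ = _ := by ring
  exact le_of_mul_le_mul_right h8 (by positivity)

/-- **the bound of the harmonic body** -/
theorem vol_P (hI : Incl P K ((-1 : ℝ) • K)) (hR : Refl μ P K ((-1 : ℝ) • K))
    (hPK : P ≤ K) (hK : 0 < vl μ K) (hn : 2 ≤ finrank ℝ E) :
    vl μ P ≤ 8 / (9 * (finrank ℝ E + 1)) * vl μ K := by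
  set N : ConvexBody E := (-1 : ℝ) • K with hN
  rcases (vl_nonneg μ P).eq_or_lt with h0 | hP
  · rw [← h0]
    positivity
  have hm := mink_second μ P (K + N) hn hP
  rw [W_one_sum μ hn, W_two_sum μ hn, vv_symm μ hR 0 1, vv_symm μ hR 0 2] at hm
  have hp1 : vl μ P ≤ vv μ P K N 2 0 := by
    have h := V_mono_replicate μ hPK 2 (replicate (finrank ℝ E - 2) P)
      (by rw [card_replicate]; omega)
    rw [← replicate_add, show 2 + (finrank ℝ E - 2) = finrank ℝ E by omega, V_self] at h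
    unfold vv
    rw [replicate_zero, add_zero, add_zero, add_comm]
    exact h
  have h27 := elem (r := vl μ P) (x := vv μ P K N 1 0) (p := vv μ P K N 2 0)
    (q := vv μ P K N 1 1) (lt_of_lt_of_le hP hp1) (vv_nonneg μ P K N (by omega))
    (vv_nonneg μ P K N (by omega)) (by linarith) (fun t => vv_rec μ hI (by omega) t)
  have hp := vv_le μ hI hK (finrank ℝ E - 2) 2 0 (by omega)
  have hm0 : (0 : ℝ) < (finrank ℝ E : ℝ) + 1 := by positivity
  norm_num at hp
  rw [← hN] at hp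
  calc vl μ P ≤ 8 / 27 * vv μ P K N 2 0 := by linarith
    _ ≤ 8 / 27 * (3 / (finrank ℝ E + 1) * vl μ K) := by gcongr
    _ = _ := by field_simp; ring

/-- the one variable inequality of dimension three -/
theorem poly3 {a : ℝ} (h0 : 0 ≤ a) (h3 : a ≤ 3) :
    32 * a ^ 3 * (7 + a) ^ 4 ≤ 25 * (1 + a) ^ 3 * (9 + 7 * a) ^ 2 * (3 + a) := by
  have e : 25 * (1 + a) ^ 3 * (9 + 7 * a) ^ 2 * (3 + a) - 32 * a ^ 3 * (7 + a) ^ 4 =
      (3 - a) * (2025 + 10575 * a + 23350 * a ^ 2 + 2906 * a ^ 3 - 1791 * a ^ 4 - 233 * a ^ 5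
        + 32 * a ^ 6) := by ring
  have h4 : a ^ 4 ≤ 9 * a ^ 2 := by
    have : a ^ 2 ≤ 9 := by nlinarith
    nlinarith [sq_nonneg a]
  have h5 : a ^ 5 ≤ 27 * a ^ 2 := by
    have h6 : a ^ 5 = a ^ 4 * a := by ring
    have h7 : a ^ 4 * a ≤ a ^ 4 * 3 := mul_le_mul_of_nonneg_left h3 (by positivity)
    linarith
  have hq : 0 ≤ 2025 + 10575 * a + 23350 * a ^ 2 + 2906 * a ^ 3 - 1791 * a ^ 4 - 233 * a ^ 5
        + 32 * a ^ 6 := by
    have h8 : 0 ≤ 2906 * a ^ 3 + 32 * a ^ 6 + 940 * a ^ 2 + 10575 * a := by positivity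
    linarith
  have := mul_nonneg (by linarith : 0 ≤ 3 - a) hq
  linarith

/-- monotonicity of `(3 y + s)⁴ / (y + s)` -/
theorem mono34 {y s Y S : ℝ} (hy : 0 < y) (hs : 0 ≤ s) (hyY : y ≤ Y) (hsS : s ≤ S) :
    (3 * y + s) ^ 4 * (Y + S) ≤ (3 * Y + S) ^ 4 * (y + s) := by
  -- first `y → Y`
  have hY : 0 < Y := lt_of_lt_of_le hy hyY
  have hS : 0 ≤ S := hs.trans hsS
  have h1 : (3 * y + s) ^ 4 * (Y + s) ≤ (3 * Y + s) ^ 4 * (y + s) := by
    have a1 : (3 * y + s) * (Y + s) ≤ (3 * Y + s) * (y + s) := by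
      nlinarith [mul_nonneg hs (sub_nonneg.2 hyY)]
    have a2 : (3 * y + s) ^ 3 ≤ (3 * Y + s) ^ 3 := pow_le_pow_left₀ (by positivity) (by linarith) 3
    calc (3 * y + s) ^ 4 * (Y + s) = (3 * y + s) ^ 3 * ((3 * y + s) * (Y + s)) := by ring
      _ ≤ (3 * Y + s) ^ 3 * ((3 * Y + s) * (y + s)) := by gcongr
      _ = _ := by ring
  -- then `s → S`
  have h2 : (3 * Y + s) ^ 4 * (Y + S) ≤ (3 * Y + S) ^ 4 * (Y + s) := by
    obtain ⟨d, hd, rfl⟩ : ∃ d : ℝ, 0 ≤ d ∧ S = s + d := ⟨S - s, by linarith, by ring⟩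
    have b1 : (3 * Y + s) ^ 4 + 4 * (3 * Y + s) ^ 3 * d ≤ (3 * Y + (s + d)) ^ 4 := by
      have : (3 * Y + (s + d)) ^ 4 - ((3 * Y + s) ^ 4 + 4 * (3 * Y + s) ^ 3 * d) =
          6 * (3 * Y + s) ^ 2 * d ^ 2 + 4 * (3 * Y + s) * d ^ 3 + d ^ 4 := by ring
      have h0 : 0 ≤ 6 * (3 * Y + s) ^ 2 * d ^ 2 + 4 * (3 * Y + s) * d ^ 3 + d ^ 4 := by positivity
      linarith
    have b2 : (3 * Y + s) ^ 4 * (Y + (s + d)) ≤
        ((3 * Y + s) ^ 4 + 4 * (3 * Y + s) ^ 3 * d) * (Y + s) := by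
      have : ((3 * Y + s) ^ 4 + 4 * (3 * Y + s) ^ 3 * d) * (Y + s) -
          (3 * Y + s) ^ 4 * (Y + (s + d)) = (3 * Y + s) ^ 3 * d * (Y + 3 * s) := by ring
      have h0 : 0 ≤ (3 * Y + s) ^ 3 * d * (Y + 3 * s) := by positivity
      linarith
    exact b2.trans (mul_le_mul_of_nonneg_right b1 (by linarith))
  have hYs : 0 < Y + s := by linarith
  have h3 : (3 * y + s) ^ 4 * (Y + S) * (Y + s) ≤ (3 * Y + S) ^ 4 * (y + s) * (Y + s) := by
    calc (3 * y + s) ^ 4 * (Y + S) * (Y + s) = ((3 * y + s) ^ 4 * (Y + s)) * (Y + S) := by ring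
      _ ≤ ((3 * Y + s) ^ 4 * (y + s)) * (Y + S) := by gcongr
      _ = ((3 * Y + s) ^ 4 * (Y + S)) * (y + s) := by ring
      _ ≤ ((3 * Y + S) ^ 4 * (Y + s)) * (y + s) := by gcongr
      _ = _ := by ring
  exact le_of_mul_le_mul_right h3 hYs

/-- the elementary inequality of dimension three -/
theorem elem3 {r x y s a : ℝ} (hy : 0 < y) (hs : 0 ≤ s) (hx : 0 ≤ x) (ha : 0 ≤ a)
    (ha3 : a ≤ 3) (h1 : y * (1 + a) ≤ a) (h2 : s ≤ a / 2) (h3 : x * (9 + 7 * a) ≤ (3 * y + s) ^ 2)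
    (h4 : r * (2 * y + 2 * s) ≤ (2 * x) ^ 2) : r ≤ 25 / 128 := by
  have ha0 : 0 < a := by
    rcases ha.eq_or_lt with h | h
    · rw [← h] at h1; linarith
    · exact h
  have hys : 0 < y + s := by linarith
  set Y : ℝ := a / (1 + a) with hY
  have hyY : y ≤ Y := by rw [hY, le_div_iff₀ (by linarith)]; linarith
  have hm := mono34 hy hs hyY h2
  have e1 : 3 * Y + a / 2 = a * (7 + a) / (2 * (1 + a)) := by
    rw [hY]; field_simp; ring
  have e2 : Y + a / 2 = a * (3 + a) / (2 * (1 + a)) := by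
    rw [hY]; field_simp; ring
  rw [e1, e2] at hm
  have h5 : (x * (9 + 7 * a)) ^ 2 ≤ ((3 * y + s) ^ 2) ^ 2 :=
    pow_le_pow_left₀ (by positivity) h3 2
  have h6 : r * (y + s) ≤ 2 * x ^ 2 := by linarith [h4]
  have h7 : r * (y + s) * (9 + 7 * a) ^ 2 ≤ 2 * (3 * y + s) ^ 4 := by
    calc r * (y + s) * (9 + 7 * a) ^ 2 ≤ (2 * x ^ 2) * (9 + 7 * a) ^ 2 := by gcongr
      _ = 2 * (x * (9 + 7 * a)) ^ 2 := by ring
      _ ≤ 2 * ((3 * y + s) ^ 2) ^ 2 := by gcongr
      _ = _ := by ring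
  have h8 : r * (y + s) * (9 + 7 * a) ^ 2 * (a * (3 + a) / (2 * (1 + a))) ≤
      2 * ((a * (7 + a) / (2 * (1 + a))) ^ 4 * (y + s)) := by
    calc r * (y + s) * (9 + 7 * a) ^ 2 * (a * (3 + a) / (2 * (1 + a))) ≤
          2 * (3 * y + s) ^ 4 * (a * (3 + a) / (2 * (1 + a))) := by gcongr
      _ = 2 * ((3 * y + s) ^ 4 * (a * (3 + a) / (2 * (1 + a)))) := by ring
      _ ≤ _ := by gcongr
  have h9 : (r * ((9 + 7 * a) ^ 2 * (a * (3 + a) / (2 * (1 + a))))) * (y + s) ≤
      (2 * (a * (7 + a) / (2 * (1 + a))) ^ 4) * (y + s) := by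
    calc _ = r * (y + s) * (9 + 7 * a) ^ 2 * (a * (3 + a) / (2 * (1 + a))) := by ring
      _ ≤ _ := h8
      _ = _ := by ring
  have h10 := le_of_mul_le_mul_right h9 hys
  have hp := poly3 ha ha3
  -- clear denominators
  have h11 : r * (8 * (1 + a) ^ 3 * (9 + 7 * a) ^ 2 * (3 + a)) ≤ 2 * (a ^ 3 * (7 + a) ^ 4) := by
    have hc : 0 < 16 * (1 + a) ^ 4 / a := by positivity
    have h12 := mul_le_mul_of_nonneg_right h10 hc.le
    have f1 : r * ((9 + 7 * a) ^ 2 * (a * (3 + a) / (2 * (1 + a)))) * (16 * (1 + a) ^ 4 / a) =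
        r * (8 * (1 + a) ^ 3 * (9 + 7 * a) ^ 2 * (3 + a)) := by
      field_simp
      ring
    have f2 : 2 * (a * (7 + a) / (2 * (1 + a))) ^ 4 * (16 * (1 + a) ^ 4 / a) =
        2 * (a ^ 3 * (7 + a) ^ 4) := by
      field_simp
      ring
    rw [f1, f2] at h12
    exact h12
  have h13 : r * (8 * (1 + a) ^ 3 * (9 + 7 * a) ^ 2 * (3 + a)) ≤
      25 / 128 * (8 * (1 + a) ^ 3 * (9 + 7 * a) ^ 2 * (3 + a)) := by
    refine h11.trans ?_
    linarith
  exact le_of_mul_le_mul_right h13 (by positivity)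

/-- **the bound of the harmonic body in dimension three** -/
theorem vol_P3 (hI : Incl P K ((-1 : ℝ) • K)) (hR : Refl μ P K ((-1 : ℝ) • K))
    (hPK : P ≤ K) (hK : 0 < vl μ K) (h3 : finrank ℝ E = 3) :
    vl μ P ≤ 25 / 128 * vl μ K := by
  rcases (vl_nonneg μ P).eq_or_lt with h0 | hP
  · rw [← h0]
    positivity
  have hg := godbersen μ K hK (q := 2) (p := 1) (by omega)
  set N : ConvexBody E := (-1 : ℝ) • K with hN
  have hg' : T μ K K N ≤ 3 * vl μ K := by
    have e : V μ (replicate 2 K + replicate 1 N) = T μ K K N := rfl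
    rw [e] at hg
    norm_num [Nat.choose] at hg
    exact hg
  -- symmetries
  have s1 : T μ P K K = T μ P N N := hR 2 0 1
  have s2 : T μ P P K = T μ P P N := hR 1 0 2
  have s3 : T μ K K N = T μ K N N := hR 2 1 0
  -- inclusions
  have i1 : ∀ t : ℝ, T μ P K K ≤ (1 - t) ^ 2 * vl μ K + t ^ 2 * T μ K K N := by
    intro t
    refine (T_mono1 μ h3 (hI t) K K).trans (le_of_eq ?_)
    rw [T_add1 μ h3, T_smul1 μ h3, T_smul1 μ h3, Real.coe_toNNReal _ (sq_nonneg _),
      Real.coe_toNNReal _ (sq_nonneg _), vl3 μ h3, T_13 μ N K K]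
  have i2 : T μ P K N ≤ T μ K K N / 2 := by
    refine (T_mono1 μ h3 (hI (1 / 2)) K N).trans (le_of_eq ?_)
    rw [T_add1 μ h3, T_smul1 μ h3, T_smul1 μ h3, Real.coe_toNNReal _ (sq_nonneg _),
      Real.coe_toNNReal _ (sq_nonneg _), T_12 μ N K N, ← s3]
    ring
  have hyP : vl μ P ≤ T μ P K K := by
    rw [vl3 μ h3]
    calc T μ P P P ≤ T μ K P P := T_mono1 μ h3 hPK P P
      _ = T μ P K P := T_12 μ K P P
      _ = T μ P P K := T_23 μ P K P
      _ ≤ T μ K P K := T_mono1 μ h3 hPK P K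
      _ = T μ P K K := T_12 μ K P K
  have hy : 0 < T μ P K K := lt_of_lt_of_le hP hyP
  set c : ℝ := vl μ K with hc
  set a : ℝ := T μ K K N with ha
  have ha0 : 0 ≤ a := T_nonneg μ h3 K K N
  have hKKK : T μ K K K = c := (vl3 μ h3 K).symm
  -- the Alexandrov-Fenchel inequality
  have i3 : T μ P P K * (9 * c + 7 * a) ≤ (3 * T μ P K K + T μ P K N) ^ 2 := by
    have h := af3 μ h3 P ((3 : ℝ≥0) • K + N) K hK hy (by
      rw [T_add1 μ h3, T_smul1 μ h3, hKKK, T_13 μ N K K, ← ha]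
      have : (((3 : ℝ≥0) : ℝ)) = 3 := by norm_num
      rw [this]
      linarith)
    simp only [T_add1 μ h3, T_smul1 μ h3, T_add2 μ h3, T_smul2 μ h3] at h
    rw [T_12 μ N K K, T_23 μ K N K, T_13 μ N N K, ← s3, T_23 μ P N K, hKKK, ← ha] at h
    have e3 : (((3 : ℝ≥0) : ℝ)) = 3 := by norm_num
    rw [e3] at h
    refine le_trans (le_of_eq ?_) (h.trans (le_of_eq ?_))
    · ring
    · ring
  have i4 : vl μ P * (2 * T μ P K K + 2 * T μ P K N) ≤ (2 * T μ P P K) ^ 2 := by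
    have h := second3 μ h3 P (K + N) hP
    simp only [T_add1 μ h3, T_add2 μ h3] at h
    rw [← vl3 μ h3] at h
    have f1 : T μ K K P = T μ P K K := T_13 μ K K P
    have f2 : T μ N N P = T μ P K K := by rw [T_13 μ N N P, s1]
    have f3 : T μ K N P = T μ P K N := by rw [T_13 μ K N P, T_23 μ P N K]
    have f4 : T μ N K P = T μ P K N := by rw [T_13 μ N K P]
    have f5 : T μ K P P = T μ P P K := T_13 μ K P P
    have f6 : T μ N P P = T μ P P K := by rw [T_13 μ N P P, s2]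
    rw [f1, f2, f3, f4, f5, f6] at h
    refine le_trans (le_of_eq ?_) (h.trans (le_of_eq ?_))
    · ring
    · ring
  have hca : 0 < c + a := by linarith
  have i1' : T μ P K K * (c + a) ≤ c * a := by
    have h := i1 (c / (c + a))
    have e : (1 - c / (c + a)) ^ 2 * c + (c / (c + a)) ^ 2 * a = c * a / (c + a) := by
      field_simp
      ring
    rw [e, le_div_iff₀ hca] at h
    exact h
  -- normalise
  have key := elem3 (r := vl μ P / c) (x := T μ P P K / c) (y := T μ P K K / c)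
    (s := T μ P K N / c) (a := a / c) (div_pos hy hK)
    (div_nonneg (T_nonneg μ h3 _ _ _) hK.le) (div_nonneg (T_nonneg μ h3 _ _ _) hK.le)
    (div_nonneg ha0 hK.le) (by rw [div_le_iff₀ hK]; linarith)
    (by
      have e : T μ P K K / c * (1 + a / c) = (T μ P K K * (c + a)) / (c * c) := by
        field_simp
      rw [e, div_le_div_iff₀ (by positivity) hK]
      nlinarith)
    (by
      rw [div_div, mul_comm c 2, ← div_div]
      exact div_le_div_of_nonneg_right i2 hK.le)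
    (by
      have e : T μ P P K / c * (9 + 7 * (a / c)) = (T μ P P K * (9 * c + 7 * a)) / c ^ 2 := by
        field_simp
      have e' : (3 * (T μ P K K / c) + T μ P K N / c) ^ 2 =
          (3 * T μ P K K + T μ P K N) ^ 2 / c ^ 2 := by
        field_simp
      rw [e, e']
      exact div_le_div_of_nonneg_right i3 (by positivity))
    (by
      have e : vl μ P / c * (2 * (T μ P K K / c) + 2 * (T μ P K N / c)) =
          (vl μ P * (2 * T μ P K K + 2 * T μ P K N)) / c ^ 2 := by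
        field_simp
      have e' : (2 * (T μ P P K / c)) ^ 2 = (2 * T μ P P K) ^ 2 / c ^ 2 := by
        field_simp
      rw [e, e']
      exact div_le_div_of_nonneg_right i4 (by positivity))
  rwa [div_le_iff₀ hK] at key

end abs

end Pool.Agent.Helper2.Mah
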