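import Pool.Agent.Helper2.Mah.Bound

/-!
# The lower bounds of the Mahler volume
-/

set_option autoImplicit false

open MeasureTheory Set
open scoped Pointwise ENNReal

noncomputable section

namespace Pool.Agent.Helper2.Mah

open W679AM H712MA Pool.Agent.TH650.MV

variable {n : ℕ} {K : Set (Fin n → ℝ)}

theorem vl_KB_pos (h : OBody K) : 0 < vl (volume : Measure (Fin n → ℝ)) (KB h) := by
  refine ENNReal.toReal_pos ?_ h.comp.measure_lt_top.ne
  exact (lt_of_lt_of_le (isOpen_interior.measure_pos volume ⟨0, h.zero⟩)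
    (measure_mono interior_subset)).ne'

theorem PB_le (h : OBody K) : PB h ≤ KB h :=
  SetLike.coe_subset_coe.mp (Helper82.Mah.prm_sub_K h)

theorem vol_prm (h : OBody K) {c : ℝ} (hc : 0 ≤ c)
    (hv : vl (volume : Measure (Fin n → ℝ)) (PB h) ≤ c * vl (volume : Measure (Fin n → ℝ)) (KB h)) :
    volume (prm K) ≤ ENNReal.ofReal c * volume K := by
  have h1 : volume (prm K) ≠ ∞ := (Helper82.Mah.prm_compact h).measure_lt_top.ne
  have h2 : volume K ≠ ∞ := h.comp.measure_lt_top.ne
  have e1 : volume (prm K) = ENNReal.ofReal (vl (volume : Measure (Fin n → ℝ)) (PB h)) :=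
    (ENNReal.ofReal_toReal h1).symm
  have e2 : volume K = ENNReal.ofReal (vl (volume : Measure (Fin n → ℝ)) (KB h)) :=
    (ENNReal.ofReal_toReal h2).symm
  rw [e1, e2, ← ENNReal.ofReal_mul hc]
  exact ENNReal.ofReal_le_ofReal hv

/-- the volume product from the volume of the harmonic body -/
theorem product (h : OBody K) {c : ℝ} (hc : 0 < c)
    (hv : volume (prm K) ≤ ENNReal.ofReal c * volume K) :
    ENNReal.ofReal (2 ^ n / c) ≤
      volume K * (ENNReal.ofReal (n.factorial : ℝ) * volume (GB.plr K)) := by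
  have h1 := GAaux.coord za h
  have h3 : ENNReal.ofReal ((2 : ℝ) ^ n / n.factorial) ≤
      ENNReal.ofReal c * (volume K * volume (GB.plr K)) := by
    refine h1.trans ?_
    rw [← mul_assoc]
    exact mul_le_mul_left hv _
  have hf : (0 : ℝ) < n.factorial := by exact_mod_cast n.factorial_pos
  have h4 := mul_le_mul_right h3 (ENNReal.ofReal ((n.factorial : ℝ) / c))
  rw [← mul_assoc, ← ENNReal.ofReal_mul (by positivity), ← ENNReal.ofReal_mul (by positivity)] at h4
  have e1 : (n.factorial : ℝ) / c * ((2 : ℝ) ^ n / n.factorial) = 2 ^ n / c := by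
    field_simp
  have e2 : (n.factorial : ℝ) / c * c = n.factorial := by
    field_simp
  rw [e1, e2] at h4
  refine h4.trans (le_of_eq ?_)
  ring

theorem minf_of (hc : IsCompact K) (hv : Convex ℝ K) (hi : (interior K).Nonempty) {c : ℝ}
    (h0 : 0 < c) (hb : ∀ h : OBody K, vl (volume : Measure (Fin n → ℝ)) (PB h) ≤
      c * vl (volume : Measure (Fin n → ℝ)) (KB h)) :
    ENNReal.ofReal (2 ^ n / c) ≤ volume K * ∫⁻ y, ENNReal.ofReal (Real.exp (-(hs K y))) := by
  by_cases hz : (0 : Fin n → ℝ) ∈ interior K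
  · have h : OBody K := ⟨hc, hv, hz⟩
    refine (product h h0 (vol_prm h h0.le (hb h))).trans ?_
    exact mul_le_mul_right (Helper82.Mah.exp_hs h) _
  · rw [Helper82.Mah.exp_hs_top hc hv hi hz, ENNReal.mul_top]
    · exact le_top
    · exact (lt_of_lt_of_le (isOpen_interior.measure_pos volume hi)
        (measure_mono interior_subset)).ne'

theorem minf_general (hc : IsCompact K) (hv : Convex ℝ K) (hi : (interior K).Nonempty)
    (hn : 2 ≤ n) : ENNReal.ofReal (9 / 8 * (n + 1) * 2 ^ n) ≤
      volume K * ∫⁻ y, ENNReal.ofReal (Real.exp (-(hs K y))) := by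
  have hf : Module.finrank ℝ (Fin n → ℝ) = n := by simp
  have h := minf_of hc hv hi (c := 8 / (9 * ((n : ℝ) + 1))) (by positivity) (fun h => by
    have h2 := vol_P (volume : Measure (Fin n → ℝ)) (incl_PB h) (refl_PB h) (PB_le h)
      (vl_KB_pos h) (by rw [hf]; exact hn)
    rwa [hf] at h2)
  refine le_trans (le_of_eq ?_) h
  congr 1
  field_simp

theorem minf_three (hc : IsCompact K) (hv : Convex ℝ K) (hi : (interior K).Nonempty)
    (hn : n = 3) : ENNReal.ofReal (1024 / 25) ≤
      volume K * ∫⁻ y, ENNReal.ofReal (Real.exp (-(hs K y))) := by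
  have hf : Module.finrank ℝ (Fin n → ℝ) = n := by simp
  have h := minf_of hc hv hi (c := 25 / 128) (by positivity) (fun h => by
    exact vol_P3 (volume : Measure (Fin n → ℝ)) (incl_PB h) (refl_PB h) (PB_le h)
      (vl_KB_pos h) (by rw [hf]; exact hn))
  refine le_trans (le_of_eq ?_) h
  congr 1
  rw [hn]
  norm_num

end Pool.Agent.Helper2.Mah
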