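import Pool.Agent.Helper2.Mah.AF3
import Pool.Agent.Helper82.Mah.Main

/-!
# The mixed volumes of the harmonic body

`K' = prm K` is the harmonic body of `K`, with `K' ⊆ (1 - t)² K - t² K` for all `t`.
-/

set_option autoImplicit false
set_option linter.unusedSectionVars false

open MeasureTheory Set Multiset Module
open scoped Pointwise NNReal

noncomputable section

namespace Pool.Agent.Helper2.Mah

open Pool.Agent.TH650.MV

/-! ### Godbersen's inequality -/

section god

variable {E : Type*} [NormedAddCommGroup E] [NormedSpace ℝ E] [FiniteDimensional ℝ E]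
  [MeasurableSpace E] [BorelSpace E] (μ : Measure E) [μ.IsAddHaarMeasure]

/-- **Godbersen's inequality** -/
theorem godbersen (K : ConvexBody E) (hK : 0 < vl μ K) {q p : ℕ} (hn : q + p = finrank ℝ E) :
    V μ (replicate q K + replicate p ((-1 : ℝ) • K)) ≤ ((q + p).choose q : ℝ) * vl μ K := by
  have hN : finrank ℝ (E × E) = finrank ℝ E + finrank ℝ E := finrank_prod
  have h1 := pd μ (replicate (q + p) K) K K hn (by rw [card_replicate]; omega)
  have h2 := ex μ K (replicate p K) (replicate q K) q p (by rw [card_replicate]; omega)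
    (by rw [card_replicate]; omega)
  have h3 : V (μ.prod μ) (replicate (q + p) (dd K) + (replicate p (j1 K) + replicate q (j2 K))) ≤
      V (μ.prod μ) (replicate (q + p) (j1 K + j2 K) + (replicate p (j1 K) + replicate q (j2 K))) :=
    V_mono_replicate (μ.prod μ) (dd_le K) (q + p) _
      (by rw [card_add, card_replicate, card_replicate, hN]; omega)
  rw [map_replicate] at h1
  rw [map_replicate, map_replicate, ← replicate_add, ← replicate_add, add_comm p q, hn, V_self] at h2
  rw [hn] at h1 h3 ⊢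
  rw [V_self] at h1
  have h4 := mul_le_mul_of_nonneg_left h3 (c0_pos E).le
  rw [h1, h2] at h4
  refine le_of_mul_le_mul_left ?_ hK
  linarith

end god

/-! ### the recursion -/

section rec

variable {E : Type*} [NormedAddCommGroup E] [NormedSpace ℝ E] [FiniteDimensional ℝ E]
  [MeasurableSpace E] [BorelSpace E] (μ : Measure E) [μ.IsAddHaarMeasure]
  (P K N : ConvexBody E)

/-- the mixed volumes `V(P[m-a-b], K[a], N[b])` -/
def vv (a b : ℕ) : ℝ :=
  V μ (replicate (finrank ℝ E - (a + b)) P + (replicate a K + replicate b N))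

theorem vv_nonneg {a b : ℕ} (hab : a + b ≤ finrank ℝ E) : 0 ≤ vv μ P K N a b :=
  V_nonneg μ _ (by rw [card_add, card_add, card_replicate, card_replicate, card_replicate]; omega)

/-- `P ⊆ (1 - t)² K + t² N` for all `t` -/
def Incl : Prop := ∀ t : ℝ, P ≤ Real.toNNReal ((1 - t) ^ 2) • K + Real.toNNReal (t ^ 2) • N

variable {P K N}

theorem vv_rec (hI : Incl P K N) {a b : ℕ} (hab : a + b + 1 ≤ finrank ℝ E) (t : ℝ) :
    vv μ P K N a b ≤ (1 - t) ^ 2 * vv μ P K N (a + 1) b + t ^ 2 * vv μ P K N a (b + 1) := by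
  unfold vv
  obtain ⟨k, hk⟩ : ∃ k, finrank ℝ E - (a + b) = k + 1 := ⟨finrank ℝ E - (a + b) - 1, by omega⟩
  rw [show finrank ℝ E - (a + 1 + b) = k by omega, show finrank ℝ E - (a + (b + 1)) = k by omega, hk]
  set s : Multiset (ConvexBody E) := replicate k P + (replicate a K + replicate b N) with hs
  have hcard : card s + 1 = finrank ℝ E := by
    rw [hs, card_add, card_add, card_replicate, card_replicate, card_replicate]; omega
  have e0 : replicate (k + 1) P + (replicate a K + replicate b N) = P ::ₘ s := by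
    rw [hs, replicate_succ, cons_add]
  have e1 : replicate k P + (replicate (a + 1) K + replicate b N) = K ::ₘ s := by
    rw [hs, replicate_succ, cons_add, add_cons]
  have e2 : replicate k P + (replicate a K + replicate (b + 1) N) = N ::ₘ s := by
    rw [hs, replicate_succ, add_cons, add_cons]
  rw [e0, e1, e2]
  refine (V_mono μ (hI t) s hcard).trans (le_of_eq ?_)
  rw [V_add μ _ _ s hcard, V_smul μ _ _ s hcard, V_smul μ _ _ s hcard,
    Real.coe_toNNReal _ (sq_nonneg _), Real.coe_toNNReal _ (sq_nonneg _)]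

/-- the harmonic bound -/
theorem vv_le (hI : Incl P K ((-1 : ℝ) • K)) (hK : 0 < vl μ K) :
    ∀ d a b : ℕ, a + b + d = finrank ℝ E →
      vv μ P K ((-1 : ℝ) • K) a b ≤
        ((a + b).choose a : ℝ) * (a + b + 1) / (finrank ℝ E + 1) * vl μ K := by
  intro d
  induction d with
  | zero =>
    intro a b hab
    rw [add_zero] at hab
    have h := godbersen μ K hK hab
    have e : vv μ P K ((-1 : ℝ) • K) a b = V μ (replicate a K + replicate b ((-1 : ℝ) • K)) := by
      unfold vv
      rw [hab, Nat.sub_self, replicate_zero, zero_add]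
    rw [e]
    refine h.trans (le_of_eq ?_)
    have hm : ((a : ℝ) + b + 1) = (finrank ℝ E : ℝ) + 1 := by
      rw [← hab]; push_cast; ring
    rw [hm]
    have : (finrank ℝ E : ℝ) + 1 ≠ 0 := by positivity
    field_simp
  | succ d ih =>
    intro a b hab
    set m : ℝ := (finrank ℝ E : ℝ) with hm
    have hm0 : 0 < m + 1 := by rw [hm]; positivity
    have h1 := ih (a + 1) b (by omega)
    have h2 := ih a (b + 1) (by omega)
    have h := vv_rec μ hI (a := a) (b := b) (by omega) (((b : ℝ) + 1) / (a + b + 2))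
    have hs : (0 : ℝ) < (a : ℝ) + b + 2 := by positivity
    have e1 : 1 - ((b : ℝ) + 1) / (a + b + 2) = ((a : ℝ) + 1) / (a + b + 2) := by
      field_simp
      ring
    rw [e1] at h
    have c1 : ((a : ℝ) + 1) * ((a + 1 + b).choose (a + 1) : ℝ) =
        (a + b + 1) * ((a + b).choose a : ℝ) := by
      have h3 : (a + b + 1) * (a + b).choose a = (a + b + 1).choose (a + 1) * (a + 1) :=
        Nat.add_one_mul_choose_eq (a + b) a
      have h4 : a + 1 + b = a + b + 1 := by ring
      rw [h4]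
      have h5 : (((a + b + 1) * (a + b).choose a : ℕ) : ℝ) =
          (((a + b + 1).choose (a + 1) * (a + 1) : ℕ) : ℝ) := by rw [h3]
      push_cast at h5
      linarith
    have c2 : ((b : ℝ) + 1) * ((a + (b + 1)).choose a : ℝ) =
        (a + b + 1) * ((a + b).choose a : ℝ) := by
      have h3 : (a + b + 1) * (a + b).choose b = (a + b + 1).choose (b + 1) * (b + 1) :=
        Nat.add_one_mul_choose_eq (a + b) b
      have h4 : (a + b).choose b = (a + b).choose a := by
        rw [← Nat.choose_symm_of_eq_add (n := a + b) (a := b) (b := a) (by ring)]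
      have h6 : (a + b + 1).choose (b + 1) = (a + (b + 1)).choose a := by
        rw [← add_assoc]
        exact Nat.choose_symm_of_eq_add (by ring)
      rw [h4, h6] at h3
      have h5 : (((a + b + 1) * (a + b).choose a : ℕ) : ℝ) =
          (((a + (b + 1)).choose a * (b + 1) : ℕ) : ℝ) := by rw [h3]
      push_cast at h5
      linarith
    have hvol := hK.le
    have g1 : (((a : ℝ) + 1) / (a + b + 2)) ^ 2 * vv μ P K ((-1 : ℝ) • K) (a + 1) b ≤
        (((a : ℝ) + 1) / (a + b + 2)) ^ 2 *
          (((a + 1 + b).choose (a + 1) : ℝ) * ((a + 1 : ℕ) + b + 1) / (m + 1) * vl μ K) := by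
      gcongr
    have g2 : (((b : ℝ) + 1) / (a + b + 2)) ^ 2 * vv μ P K ((-1 : ℝ) • K) a (b + 1) ≤
        (((b : ℝ) + 1) / (a + b + 2)) ^ 2 *
          (((a + (b + 1)).choose a : ℝ) * (a + (b + 1 : ℕ) + 1) / (m + 1) * vl μ K) := by
      gcongr
    refine h.trans ((add_le_add g1 g2).trans (le_of_eq ?_))
    push_cast
    have f1 : ((a : ℝ) + 1) ^ 2 * ((a + 1 + b).choose (a + 1) : ℝ) =
        (a + 1) * ((a + b + 1) * ((a + b).choose a : ℝ)) := by rw [← c1]; ring
    have f2 : ((b : ℝ) + 1) ^ 2 * ((a + (b + 1)).choose a : ℝ) =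
        (b + 1) * ((a + b + 1) * ((a + b).choose a : ℝ)) := by rw [← c2]; ring
    have e3 : (((a : ℝ) + 1) / (a + b + 2)) ^ 2 *
          (((a + 1 + b).choose (a + 1) : ℝ) * (a + 1 + b + 1) / (m + 1) * vl μ K) +
        (((b : ℝ) + 1) / (a + b + 2)) ^ 2 *
          (((a + (b + 1)).choose a : ℝ) * (a + (b + 1) + 1) / (m + 1) * vl μ K) =
        ((((a : ℝ) + 1) ^ 2 * ((a + 1 + b).choose (a + 1) : ℝ) +
          ((b : ℝ) + 1) ^ 2 * ((a + (b + 1)).choose a : ℝ)) / (a + b + 2)) / (m + 1) * vl μ K := by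
      field_simp
      ring
    rw [e3, f1, f2]
    field_simp
    ring

end rec

/-! ### the harmonic body -/

open Matrix
open W679AM

variable {n : ℕ} {K : Set (Fin n → ℝ)}

/-- the body as a `ConvexBody` -/
def KB (h : OBody K) : ConvexBody (Fin n → ℝ) := ⟨K, h.conv, h.comp, ⟨0, GAaux.zmem h⟩⟩

theorem prm_convex (K : Set (Fin n → ℝ)) (h : OBody K) : Convex ℝ (prm K) := by
  intro x hx y hy s t hs0 ht hst u
  have p0 : 0 ≤ hs K u + hs K (-u) := add_nonneg (GAaux.hs_nonneg h u) (GAaux.hs_nonneg h (-u))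
  have h1 : |(s • x + t • y) ⬝ᵥ u| ≤ s * |x ⬝ᵥ u| + t * |y ⬝ᵥ u| := by
    rw [add_dotProduct, smul_dotProduct, smul_dotProduct, smul_eq_mul, smul_eq_mul]
    refine (abs_add_le _ _).trans ?_
    rw [abs_mul, abs_mul, abs_of_nonneg hs0, abs_of_nonneg ht]
  have hx' := mul_le_mul_of_nonneg_left (hx u) hs0
  have hy' := mul_le_mul_of_nonneg_left (hy u) ht
  have h2 := mul_le_mul_of_nonneg_right h1 p0
  have h3 : s * (hs K u * hs K (-u)) + t * (hs K u * hs K (-u)) = hs K u * hs K (-u) := by
    rw [← add_mul, hst, one_mul]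
  linarith

theorem zero_mem_prm (h : OBody K) : (0 : Fin n → ℝ) ∈ prm K := by
  intro u
  rw [zero_dotProduct, abs_zero, zero_mul]
  exact mul_nonneg (GAaux.hs_nonneg h u) (GAaux.hs_nonneg h (-u))

/-- the harmonic body as a `ConvexBody` -/
def PB (h : OBody K) : ConvexBody (Fin n → ℝ) :=
  ⟨prm K, prm_convex K h, Helper82.Mah.prm_compact h, ⟨0, zero_mem_prm h⟩⟩

theorem incl_PB (h : OBody K) : Incl (PB h) (KB h) ((-1 : ℝ) • KB h) := by
  intro t
  set S : ConvexBody (Fin n → ℝ) :=
    Real.toNNReal ((1 - t) ^ 2) • KB h + Real.toNNReal (t ^ 2) • ((-1 : ℝ) • KB h) with hS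
  refine SetLike.coe_subset_coe.mp fun x hx => ?_
  refine Helper82.Mah.mem_of_dot S.isCompact S.convex fun u => ?_
  obtain ⟨a, ha, hau⟩ := Helper82.Mah.exists_max h u
  obtain ⟨b, hb, hbu⟩ := Helper82.Mah.exists_max h (-u)
  refine ⟨(1 - t) ^ 2 • a + t ^ 2 • ((-1 : ℝ) • b), ?_, ?_⟩
  · rw [hS, ConvexBody.coe_add, ConvexBody.coe_smul', ConvexBody.coe_smul', ConvexBody.coe_smul]
    refine Set.add_mem_add ⟨a, ha, ?_⟩ ⟨(-1 : ℝ) • b, ⟨b, hb, rfl⟩, ?_⟩
    · show (Real.toNNReal ((1 - t) ^ 2) : ℝ) • a = _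
      rw [Real.coe_toNNReal _ (sq_nonneg _)]
    · show (Real.toNNReal (t ^ 2) : ℝ) • ((-1 : ℝ) • b) = _
      rw [Real.coe_toNNReal _ (sq_nonneg _)]
  · have h1 := Helper82.Mah.prm_dot h hx u t
    rw [add_dotProduct, smul_dotProduct, smul_dotProduct, smul_dotProduct, hau]
    rw [← hbu, dotProduct_neg] at h1
    simp only [smul_eq_mul]
    linarith

theorem refl_PB (h : OBody K) (a b c : ℕ) :
    V volume (replicate c (PB h) + (replicate a (KB h) + replicate b ((-1 : ℝ) • KB h))) =
      V volume (replicate c (PB h) + (replicate b (KB h) + replicate a ((-1 : ℝ) • KB h))) := by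
  have h0 := V_equiv (volume : Measure (Fin n → ℝ)) (ContinuousLinearEquiv.neg ℝ (M := Fin n → ℝ))
    (replicate c (PB h) + (replicate a (KB h) + replicate b ((-1 : ℝ) • KB h)))
  have h1 : (volume : Measure (Fin n → ℝ)).map (ContinuousLinearEquiv.neg ℝ (M := Fin n → ℝ)) =
      volume := Measure.map_neg_eq_self volume
  rw [h1] at h0
  have e1 : img ((ContinuousLinearEquiv.neg ℝ (M := Fin n → ℝ) : (Fin n → ℝ) →L[ℝ] (Fin n → ℝ)))
      (KB h) = (-1 : ℝ) • KB h := by
    apply SetLike.coe_injective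
    rw [ConvexBody.coe_smul]
    ext x
    constructor
    · rintro ⟨y, hy, rfl⟩
      exact ⟨y, hy, by simp⟩
    · rintro ⟨y, hy, rfl⟩
      exact ⟨y, hy, by simp⟩
  have e2 : img ((ContinuousLinearEquiv.neg ℝ (M := Fin n → ℝ) : (Fin n → ℝ) →L[ℝ] (Fin n → ℝ)))
      ((-1 : ℝ) • KB h) = KB h := by
    apply SetLike.coe_injective
    ext x
    constructor
    · rintro ⟨_, ⟨y, hy, rfl⟩, rfl⟩
      simpa using hy
    · intro hx
      exact ⟨(-1 : ℝ) • x, ⟨x, hx, rfl⟩, by simp⟩
  have e3 : img ((ContinuousLinearEquiv.neg ℝ (M := Fin n → ℝ) : (Fin n → ℝ) →L[ℝ] (Fin n → ℝ)))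
      (PB h) = PB h := by
    apply SetLike.coe_injective
    ext x
    constructor
    · rintro ⟨y, hy, rfl⟩
      exact Helper82.Mah.prm_neg hy
    · intro hx
      exact ⟨-x, Helper82.Mah.prm_neg hx, by simp⟩
  rw [Multiset.map_add, Multiset.map_add, map_replicate, map_replicate, map_replicate, e1, e2, e3,
    add_comm (replicate a _)] at h0
  exact h0.symm

end Pool.Agent.Helper2.Mah
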