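import Pool.Agent.Helper2.Mah.Final

/-!
# Lower bounds of the `L^p` Mahler volumes in low dimensions

For every convex body `K` of `ℝⁿ`, `n ≥ 2`, in any position, and every `p ∈ (0, ∞]`,
`M_p(K) ≥ (9/8) (n + 1) 2ⁿ`, and in dimension three `M_p(K) ≥ 1024/25 = 40.96`.

For `n = 2` the bound is `27/2`, Mahler's sharp constant for `p = ∞`.  For `n = 3` the conjectured
minimum for `p = ∞` is `128/3 = 42.67`.

Proof.  For an interior point `z` (the origin) the harmonic body `K'` satisfies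
`|K'| |K°| ≥ 2ⁿ/n!` (library, `AsymmetricPolar`) and lies in `(1 - t)² K - t² K` for all `t`.
By the monotonicity of mixed volumes and Godbersen's inequality
`V(K'[n-a-b], K[a], -K[b]) ≤ C(a+b, a) (a+b+1)/(n+1) |K|`.  Minkowski's second inequality for `K'`
and `K - K` gives `|K'| ≤ (8/27) V(K'[n-2], K[2]) ≤ 8/(9 (n+1)) |K|`.  In dimension three the
Alexandrov-Fenchel inequality `V(K', K', K) V(B, B, K) ≤ V(K', B, K)²` for `B = 3 K - K`, which
follows from the Brunn-Minkowski inequality in this dimension, gives `|K'| ≤ (25/128) |K|`.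
-/

set_option autoImplicit false

noncomputable section

open MeasureTheory
open scoped ENNReal

namespace Pool.Agent.Helper2.Mah.HarmonicBody

variable {n : ℕ}

/-- convex bodies of `ℝⁿ` (in any position) -/
def Body (K : Set (Fin n → ℝ)) : Prop :=
  Convex ℝ K ∧ IsCompact K ∧ (interior K).Nonempty

/-- the `L^p` Mahler volume `|L| ∫ exp (-h_{p,L}(y)) dy` for real `p > 0`, where
`exp (-h_{p,L}(y))` is the power `-1/p` of the average of `exp (p ⟨x, y⟩)` over `L` -/
def Mp (p : ℝ) (L : Set (Fin n → ℝ)) : ℝ≥0∞ := volume L *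
  ∫⁻ y : Fin n → ℝ, ENNReal.ofReal
    (((∫ x in L, Real.exp (p * ∑ i, x i * y i)) / (volume L).toReal) ^ (-(1 / p)))

/-- the Mahler volume `|L| ∫ exp (-h_L(y)) dy` (`p = ∞`), with the support function `h_L` -/
def Minf (L : Set (Fin n → ℝ)) : ℝ≥0∞ := volume L *
  ∫⁻ y : Fin n → ℝ, ENNReal.ofReal
    (Real.exp (-(sSup ((fun x : Fin n → ℝ => ∑ i, x i * y i) '' L))))

/-- **Lower bounds of the `L^p` Mahler volumes of all convex bodies.** -/
theorem result (n : ℕ) (K : Set (Fin n → ℝ)) (hK : Body K) :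
    -- (1) all dimensions at least two
    (2 ≤ n →
      ENNReal.ofReal (9 / 8 * (n + 1) * 2 ^ n) ≤ Minf K ∧
        ∀ p : ℝ, 0 < p → ENNReal.ofReal (9 / 8 * (n + 1) * 2 ^ n) ≤ Mp p K) ∧
    -- (2) dimension three
    (n = 3 →
      ENNReal.ofReal (1024 / 25) ≤ Minf K ∧
        ∀ p : ℝ, 0 < p → ENNReal.ofReal (1024 / 25) ≤ Mp p K) := by
  obtain ⟨hv, hc, hi⟩ := hK
  have hp : ∀ p : ℝ, 0 < p → Minf K ≤ Mp p K := by
    intro p hp
    refine mul_le_mul_right (lintegral_mono fun y => ENNReal.ofReal_le_ofReal ?_) _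
    exact Helper82.Mah.lp_le hc hi hp y
  refine ⟨fun hn => ?_, fun hn => ?_⟩
  · have h := Helper2.Mah.minf_general hc hv hi hn
    exact ⟨h, fun p hp0 => h.trans (hp p hp0)⟩
  · have h := Helper2.Mah.minf_three hc hv hi hn
    exact ⟨h, fun p hp0 => h.trans (hp p hp0)⟩

end Pool.Agent.Helper2.Mah.HarmonicBody

end
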