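import Mathlib
import Pool.Graph.R_seed8.TH650.MV.EC
import Pool.Graph.R_pool_sql_team_seeded_c8625f6e.K4H96.HS.BM0

/-!
# Minkowski's second inequality for mixed volumes, from the Brunn-Minkowski inequality
-/

set_option autoImplicit false
set_option linter.unusedSectionVars false

open MeasureTheory Set Multiset Module
open scoped Pointwise NNReal

noncomputable section

namespace Pool.Agent.Helper2.Mah

open Pool.Agent.TH650.MV

/-! ### comparison of coefficients -/

open Polynomial in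
/-- the lowest coefficient of a polynomial that is nonnegative on `(0, 1)` -/
theorem coeff_nonneg_of_eval (R : ℝ[X]) (k : ℕ) (h0 : ∀ i < k, R.coeff i = 0)
    (h : ∀ x : ℝ, 0 < x → x < 1 → 0 ≤ R.eval x) : 0 ≤ R.coeff k := by
  obtain ⟨S, hS⟩ := X_pow_dvd_iff.2 h0
  have h1 : R.coeff k = S.eval 0 := by
    rw [hS, ← coeff_zero_eq_eval_zero]
    have := coeff_X_pow_mul S k 0
    rwa [zero_add] at this
  rw [h1]
  have h2 : ∀ x : ℝ, 0 < x → x < 1 → 0 ≤ S.eval x := by
    intro x hx hx1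
    have h3 := h x hx hx1
    rw [hS, eval_mul, eval_pow, eval_X] at h3
    exact nonneg_of_mul_nonneg_right h3 (pow_pos hx k)
  have hc : ContinuousWithinAt (fun x : ℝ => S.eval x) (Ioo 0 1) 0 :=
    S.continuous.continuousWithinAt
  have hne : (nhdsWithin (0 : ℝ) (Ioo 0 1)).NeBot := by
    rw [← mem_closure_iff_nhdsWithin_neBot, closure_Ioo (by norm_num)]
    exact ⟨le_rfl, zero_le_one⟩
  exact ge_of_tendsto hc (eventually_nhdsWithin_of_forall fun x hx => h2 x hx.1 hx.2)

section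

variable {G : Type*} [NormedAddCommGroup G] [NormedSpace ℝ G] [FiniteDimensional ℝ G]
  [MeasurableSpace G] [BorelSpace G] (μ : Measure G) [μ.IsAddHaarMeasure]

/-- the mixed volumes `V(B[i], A[n-i])` -/
def W (A B : ConvexBody G) (i : ℕ) : ℝ := V μ (replicate i B + replicate (finrank ℝ G - i) A)

theorem W_nonneg (A B : ConvexBody G) {i : ℕ} (hi : i ≤ finrank ℝ G) : 0 ≤ W μ A B i :=
  V_nonneg μ _ (by rw [card_add, card_replicate, card_replicate]; omega)

theorem W_zero (A B : ConvexBody G) : W μ A B 0 = vl μ A := by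
  unfold W
  rw [replicate_zero, zero_add, Nat.sub_zero, V_self]

theorem vl_nonneg (A : ConvexBody G) : 0 ≤ vl μ A := ENNReal.toReal_nonneg

/-- the volume of `A + s B` as a polynomial -/
theorem vl_W (A B : ConvexBody G) (s : ℝ≥0) :
    vl μ (A + s • B) = ∑ i ∈ Finset.range (finrank ℝ G + 1),
      ((finrank ℝ G).choose i : ℝ) * (s : ℝ) ^ i * W μ A B i :=
  vl_add_smul μ A B s

theorem vl_mono_add (A B : ConvexBody G) (s : ℝ≥0) : vl μ A ≤ vl μ (A + s • B) := by
  rw [vl_W, Finset.sum_range_succ', ← W_zero μ A B]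
  have h : 0 ≤ ∑ i ∈ Finset.range (finrank ℝ G),
      ((finrank ℝ G).choose (i + 1) : ℝ) * (s : ℝ) ^ (i + 1) * W μ A B (i + 1) :=
    Finset.sum_nonneg fun i hi => mul_nonneg (by positivity)
      (W_nonneg μ A B (by have := Finset.mem_range.mp hi; omega))
  simpa using h

theorem vl_smul (t : ℝ≥0) (X : ConvexBody G) :
    vl μ (t • X) = (t : ℝ) ^ finrank ℝ G * vl μ X := by
  unfold vl
  rw [ConvexBody.coe_smul']
  change (μ ((t : ℝ) • (X : Set G))).toReal = _
  rw [Measure.addHaar_smul, ENNReal.toReal_mul, ENNReal.toReal_ofReal (abs_nonneg _),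
    abs_of_nonneg (by positivity)]

/-- Brunn-Minkowski, root-free -/
theorem bm (A B : ConvexBody G) {a b : ℝ} (ha : 0 < a) (hb : 0 < b)
    (hA : a ^ finrank ℝ G ≤ vl μ A) (hB : b ^ finrank ℝ G ≤ vl μ B) :
    (a + b) ^ finrank ℝ G ≤ vl μ (A + B) := by
  have h := Pool.Agent.K4H96.HS.bm_compact μ (A : Set G) (B : Set G) A.isCompact B.isCompact
    (finrank ℝ G) rfl a b ha hb hA hB
  unfold vl
  rw [ConvexBody.coe_add]
  exact h

/-- Brunn-Minkowski for the segment from `A` to `A + B` -/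
theorem bm_seg (A B : ConvexBody G) {a c : ℝ} (ha : 0 < a) (hac : a ≤ c)
    (hA : a ^ finrank ℝ G ≤ vl μ A) (hc : c ^ finrank ℝ G ≤ vl μ (A + B))
    {e : ℝ} (he : 0 < e) (he1 : e < 1) :
    (a + e * (c - a)) ^ finrank ℝ G ≤ vl μ (A + e.toNNReal • B) := by
  have hc0 : 0 < c := lt_of_lt_of_le ha hac
  have h1e : 0 < 1 - e := by linarith
  have hee : (e.toNNReal : ℝ) = e := Real.coe_toNNReal e he.le
  have hff : ((1 - e).toNNReal : ℝ) = 1 - e := Real.coe_toNNReal _ h1e.le
  have hsum : (1 - e).toNNReal + e.toNNReal = 1 := by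
    rw [← NNReal.coe_inj, NNReal.coe_add, hee, hff, NNReal.coe_one]
    ring
  have hbody : (1 - e).toNNReal • A + e.toNNReal • (A + B) = A + e.toNNReal • B := by
    rw [smul_add, ← add_assoc, ← add_smul, hsum, one_smul]
  have h := bm μ ((1 - e).toNNReal • A) (e.toNNReal • (A + B)) (a := (1 - e) * a)
    (b := e * c) (by positivity) (by positivity)
    (by rw [vl_smul, hff, mul_pow]; gcongr) (by rw [vl_smul, hee, mul_pow]; gcongr)
  rw [hbody] at h
  refine le_trans (le_of_eq ?_) h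
  congr 1
  ring

open Polynomial in
/-- the polynomial `|A + s B|` -/
def PW (A B : ConvexBody G) : ℝ[X] :=
  ∑ i ∈ Finset.range (finrank ℝ G + 1), C (((finrank ℝ G).choose i : ℝ) * W μ A B i) * X ^ i

open Polynomial in
theorem PW_eval (A B : ConvexBody G) {s : ℝ} (hs : 0 ≤ s) :
    (PW μ A B).eval s = vl μ (A + s.toNNReal • B) := by
  rw [vl_W, Real.coe_toNNReal s hs, PW, eval_finsetSum]
  refine Finset.sum_congr rfl fun i _ => ?_
  rw [eval_mul, eval_C, eval_pow, eval_X]
  ring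

open Polynomial in
theorem PW_coeff (A B : ConvexBody G) {i : ℕ} (hi : i ≤ finrank ℝ G) :
    (PW μ A B).coeff i = ((finrank ℝ G).choose i : ℝ) * W μ A B i := by
  rw [PW, finsetSum_coeff, Finset.sum_eq_single i]
  · rw [coeff_C_mul, coeff_X_pow, if_pos rfl, mul_one]
  · intro j _ hj
    rw [coeff_C_mul, coeff_X_pow, if_neg (Ne.symm hj), mul_zero]
  · intro h
    exact absurd (Finset.mem_range.mpr (by omega)) h

open Polynomial in
theorem lin_pow_coeff (a b : ℝ) (n i : ℕ) :
    ((C a + C b * X : ℝ[X]) ^ n).coeff i = (n.choose i : ℝ) * (b ^ i * a ^ (n - i)) := by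
  have h : (C a + C b * X : ℝ[X]) ^ n = ∑ m ∈ Finset.range (n + 1),
      C ((n.choose m : ℝ) * (b ^ m * a ^ (n - m))) * X ^ m := by
    rw [add_comm, add_pow]
    refine Finset.sum_congr rfl fun m _ => ?_
    rw [mul_pow, ← C_pow, ← C_pow]
    simp only [C_mul, C_pow, map_natCast]
    ring
  rw [h, finsetSum_coeff]
  by_cases hi : i ≤ n
  · rw [Finset.sum_eq_single i]
    · rw [coeff_C_mul, coeff_X_pow, if_pos rfl, mul_one]
    · intro j _ hj
      rw [coeff_C_mul, coeff_X_pow, if_neg (Ne.symm hj), mul_zero]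
    · intro h
      exact absurd (Finset.mem_range.mpr (by omega)) h
  · rw [Nat.choose_eq_zero_of_lt (by omega), Nat.cast_zero, zero_mul]
    refine Finset.sum_eq_zero fun j hj => ?_
    rw [coeff_C_mul, coeff_X_pow, if_neg (by have := Finset.mem_range.mp hj; omega), mul_zero]

theorem W_smul (A B : ConvexBody G) (s : ℝ≥0) {i : ℕ} (hi : i ≤ finrank ℝ G) :
    W μ A (s • B) i = (s : ℝ) ^ i * W μ A B i := by
  unfold W
  exact V_smul_replicate μ s B i _ (by rw [card_replicate]; omega)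

open Polynomial in
/-- Minkowski's first inequality for `A` and `A + B` -/
theorem mink_first (A B : ConvexBody G) (hn : 1 ≤ finrank ℝ G) {a : ℝ} (ha : 0 < a)
    (hA : a ^ finrank ℝ G = vl μ A) :
    vl μ (A + B) ≤ (a + W μ A B 1 / a ^ (finrank ℝ G - 1)) ^ finrank ℝ G := by
  set n := finrank ℝ G with hndef
  have hn0 : n ≠ 0 := by omega
  set c : ℝ := (vl μ (A + B)) ^ ((n : ℝ)⁻¹) with hcdef
  have hvc : c ^ n = vl μ (A + B) := Real.rpow_inv_natCast_pow (vl_nonneg μ _) hn0
  have hc0 : 0 ≤ c := Real.rpow_nonneg (vl_nonneg μ _) _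
  have hac : a ≤ c := by
    refine le_of_pow_le_pow_left₀ hn0 hc0 ?_
    rw [hA, hvc]
    have := vl_mono_add μ A B 1
    rwa [one_smul] at this
  -- compare the linear coefficients
  have e0 : (PW μ A B - (C a + C (c - a) * X) ^ n).coeff 0 = 0 := by
    rw [coeff_sub, PW_coeff μ A B (Nat.zero_le _), lin_pow_coeff, W_zero, ← hA]
    simp
  have e1 : (PW μ A B - (C a + C (c - a) * X) ^ n).coeff 1 =
      n * (W μ A B 1 - (c - a) * a ^ (n - 1)) := by
    rw [coeff_sub, PW_coeff μ A B hn, lin_pow_coeff, ← hndef, Nat.choose_one_right]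
    ring
  have key := coeff_nonneg_of_eval (PW μ A B - (C a + C (c - a) * X) ^ n) 1 (by
      intro i hi
      obtain rfl : i = 0 := by omega
      exact e0) (by
      intro x hx hx1
      rw [eval_sub, PW_eval μ A B hx.le, eval_pow, eval_add, eval_C, eval_mul, eval_C, eval_X]
      have := bm_seg μ A B ha hac hA.le hvc.le hx hx1
      rw [mul_comm x] at this
      linarith)
  rw [e1] at key
  have hnpos : (0 : ℝ) < n := by exact_mod_cast (by omega : 0 < n)
  have h2 : 0 ≤ W μ A B 1 - (c - a) * a ^ (n - 1) := nonneg_of_mul_nonneg_right key hnpos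
  have h3 : c ≤ a + W μ A B 1 / a ^ (n - 1) := by
    have : c - a ≤ W μ A B 1 / a ^ (n - 1) := by
      rw [le_div_iff₀ (pow_pos ha _)]
      linarith
    linarith
  rw [← hvc]
  exact pow_le_pow_left₀ hc0 h3 n

open Polynomial in
/-- Minkowski's second inequality -/
theorem mink_second (A B : ConvexBody G) (hn : 2 ≤ finrank ℝ G) (hA : 0 < vl μ A) :
    vl μ A * W μ A B 2 ≤ W μ A B 1 ^ 2 := by
  set n := finrank ℝ G with hndef
  have hn0 : n ≠ 0 := by omega
  set a : ℝ := (vl μ A) ^ ((n : ℝ)⁻¹) with hadef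
  have haA : a ^ n = vl μ A := Real.rpow_inv_natCast_pow (vl_nonneg μ _) hn0
  have ha : 0 < a := Real.rpow_pos_of_pos hA _
  set b : ℝ := W μ A B 1 / a ^ (n - 1) with hbdef
  have hb1 : b * a ^ (n - 1) = W μ A B 1 := div_mul_cancel₀ _ (pow_pos ha _).ne'
  have e0 : ((C a + C b * X) ^ n - PW μ A B).coeff 0 = 0 := by
    rw [coeff_sub, PW_coeff μ A B (Nat.zero_le _), lin_pow_coeff, W_zero, ← haA]
    simp
  have e1 : ((C a + C b * X) ^ n - PW μ A B).coeff 1 = 0 := by
    rw [coeff_sub, PW_coeff μ A B (by omega), lin_pow_coeff, ← hndef, ← hb1]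
    ring
  have e2 : ((C a + C b * X) ^ n - PW μ A B).coeff 2 =
      (n.choose 2 : ℝ) * (b ^ 2 * a ^ (n - 2) - W μ A B 2) := by
    rw [coeff_sub, PW_coeff μ A B (by omega), lin_pow_coeff, ← hndef]
    ring
  have key := coeff_nonneg_of_eval ((C a + C b * X) ^ n - PW μ A B) 2 (by
      intro i hi
      obtain rfl | rfl : i = 0 ∨ i = 1 := by omega
      · exact e0
      · exact e1) (by
      intro x hx hx1
      rw [eval_sub, PW_eval μ A B hx.le, eval_pow, eval_add, eval_C, eval_mul, eval_C, eval_X]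
      have h := mink_first μ A (x.toNNReal • B) (by omega) ha haA
      rw [W_smul μ A B _ (by omega), Real.coe_toNNReal x hx.le, pow_one] at h
      have e : x * W μ A B 1 / a ^ (finrank ℝ G - 1) = b * x := by
        rw [hbdef]; ring
      rw [e] at h
      linarith)
  rw [e2] at key
  have hch : (0 : ℝ) < n.choose 2 := by exact_mod_cast Nat.choose_pos hn
  have h2 : 0 ≤ b ^ 2 * a ^ (n - 2) - W μ A B 2 := nonneg_of_mul_nonneg_right key hch
  have h3 : a ^ n = a ^ (n - 2) * a ^ 2 := by rw [← pow_add]; congr 1; omega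
  have h4 : a ^ (n - 1) = a ^ (n - 2) * a := by rw [← pow_succ]; congr 1; omega
  rw [← haA, ← hb1, h3, h4]
  have h5 : 0 ≤ a ^ (n - 2) * a ^ 2 * (b ^ 2 * a ^ (n - 2) - W μ A B 2) := by positivity
  nlinarith [h5]

end

end Pool.Agent.Helper2.Mah
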